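import Mathlib
import Pool.Agent.TH119.OP.Trace

/-!
# The commutant, absolute irreducibility and traces
-/

set_option linter.unusedSectionVars false
set_option linter.style.haveILetI false

namespace Pool.Agent.TH119.IR

open Matrix
open Pool.Agent.TH119.OP (sp mem_sp exists_family)

variable {G : Type*} [Group G] {n : ℕ} {k : Type*} [Field k]

/-- The commutant. -/
def com (ρ : G →* GL (Fin n) k) : Submodule k (Matrix (Fin n) (Fin n) k) where
  carrier := {X | ∀ g, X * (ρ g : Matrix (Fin n) (Fin n) k) = ρ g * X}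
  add_mem' := by
    intro a b ha hb g
    rw [add_mul, mul_add, ha g, hb g]
  zero_mem' := fun g => by rw [zero_mul, mul_zero]
  smul_mem' := by
    intro c a ha g
    rw [smul_mul_assoc, mul_smul_comm, ha g]

theorem mem_com {ρ : G →* GL (Fin n) k} {X : Matrix (Fin n) (Fin n) k} :
    X ∈ com ρ ↔ ∀ g, X * (ρ g : Matrix (Fin n) (Fin n) k) = ρ g * X := Iff.rfl

/-- The representation on column vectors. -/
noncomputable def toRep (ρ : G →* GL (Fin n) k) : Representation k G (Fin n → k) where
  toFun g := Matrix.toLin' (ρ g : Matrix (Fin n) (Fin n) k)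
  map_one' := by rw [map_one, Units.val_one, Matrix.toLin'_one]; rfl
  map_mul' a b := by rw [map_mul, Units.val_mul, Matrix.toLin'_mul]; rfl

theorem character_toRep (ρ : G →* GL (Fin n) k) (g : G) :
    (toRep ρ).character g = (ρ g : Matrix (Fin n) (Fin n) k).trace := by
  rw [Representation.character]
  exact Matrix.trace_toLin'_eq _

/-- Endomorphisms and the commutant. -/
noncomputable def comEquiv (ρ : G →* GL (Fin n) k) :
    Representation.IntertwiningMap (toRep ρ) (toRep ρ) ≃ₗ[k] com ρ where
  toFun f := ⟨LinearMap.toMatrix' f.toLinearMap, fun g => by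
    have h1 := f.isIntertwining' g
    have h2 := congrArg LinearMap.toMatrix' h1
    rw [LinearMap.toMatrix'_comp, LinearMap.toMatrix'_comp] at h2
    have h3 : LinearMap.toMatrix' (toRep ρ g) = (ρ g : Matrix (Fin n) (Fin n) k) :=
      LinearMap.toMatrix'_toLin' _
    rwa [h3] at h2⟩
  map_add' f g := by
    apply Subtype.ext
    change LinearMap.toMatrix' (f.toLinearMap + g.toLinearMap) = _
    rw [map_add]
    rfl
  map_smul' c f := by
    apply Subtype.ext
    change LinearMap.toMatrix' (c • f.toLinearMap) = _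
    rw [map_smul]
    rfl
  invFun X := ⟨Matrix.toLin' (X : Matrix (Fin n) (Fin n) k), fun g => by
    change Matrix.toLin' (X : Matrix (Fin n) (Fin n) k) ∘ₗ
      Matrix.toLin' (ρ g : Matrix (Fin n) (Fin n) k) = Matrix.toLin' _ ∘ₗ Matrix.toLin' _
    rw [← Matrix.toLin'_mul, ← Matrix.toLin'_mul, mem_com.1 X.2 g]⟩
  left_inv f := by
    apply Representation.IntertwiningMap.toLinearMap_injective
    exact Matrix.toLin'_toMatrix' _
  right_inv X := by
    apply Subtype.ext
    exact LinearMap.toMatrix'_toLin' _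

/-- The dimension of the commutant is the norm of the character. -/
theorem finrank_com [CharZero k] [Finite G] [Fintype G] (ρ : G →* GL (Fin n) k) :
    ∑ g, (ρ g : Matrix (Fin n) (Fin n) k).trace * (ρ g⁻¹ : Matrix (Fin n) (Fin n) k).trace =
      Nat.card G * Module.finrank k (com ρ) := by
  have h0 : (Nat.card G : k) ≠ 0 := Nat.cast_ne_zero.2 Nat.card_pos.ne'
  letI : Invertible (Nat.card G : k) := invertibleOfNonzero h0
  have h1 := Representation.card_inv_mul_sum_char_mul_char_eq_finrank (toRep ρ) (toRep ρ)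
  rw [(comEquiv ρ).finrank_eq, inv_mul_eq_iff_eq_mul₀ h0] at h1
  rw [← h1]
  refine Finset.sum_congr rfl fun g _ => ?_
  rw [character_toRep, character_toRep]

/-- **Orthogonality.** If the commutant is one-dimensional, only zero is orthogonal to the image of
the group for the trace form. -/
theorem eq_zero_of_com [CharZero k] [Finite G] (hn : 0 < n) (ρ : G →* GL (Fin n) k)
    (h : Module.finrank k (com ρ) = 1) (Y : Matrix (Fin n) (Fin n) k)
    (hY : ∀ g, (Y * (ρ g : Matrix (Fin n) (Fin n) k)).trace = 0) : Y = 0 := by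
  classical
  haveI : Fintype G := Fintype.ofFinite G
  haveI : Nonempty (Fin n) := ⟨⟨0, hn⟩⟩
  have hG : (Fintype.card G : k) ≠ 0 := Nat.cast_ne_zero.2 Fintype.card_ne_zero
  have hnk : (n : k) ≠ 0 := Nat.cast_ne_zero.2 hn.ne'
  have h1mem : (1 : Matrix (Fin n) (Fin n) k) ∈ com ρ := fun g => by rw [one_mul, mul_one]
  -- averages are scalar
  have hT : ∀ X : Matrix (Fin n) (Fin n) k, ∃ c : k,
      ∑ g, (ρ g : Matrix (Fin n) (Fin n) k) * X * (ρ g⁻¹ : Matrix (Fin n) (Fin n) k) =
        c • (1 : Matrix (Fin n) (Fin n) k) ∧ c * n = Fintype.card G * X.trace := by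
    intro X
    have hmem : (∑ g, (ρ g : Matrix (Fin n) (Fin n) k) * X *
        (ρ g⁻¹ : Matrix (Fin n) (Fin n) k)) ∈ com ρ := by
      rw [mem_com]
      intro x
      rw [Finset.sum_mul, Finset.mul_sum, ← Equiv.sum_comp (Equiv.mulLeft x)]
      refine Finset.sum_congr rfl fun g _ => ?_
      rw [Equiv.coe_mulLeft, _root_.mul_inv_rev, map_mul, map_mul, Units.val_mul, Units.val_mul]
      have h2 : (ρ x⁻¹ : Matrix (Fin n) (Fin n) k) * ρ x = 1 := by
        rw [← Units.val_mul, ← map_mul, inv_mul_cancel, map_one, Units.val_one]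
      simp only [mul_assoc, h2, mul_one]
    obtain ⟨c, hc⟩ := (finrank_eq_one_iff_of_nonzero' (⟨1, h1mem⟩ : com ρ) (by
      intro h0
      exact one_ne_zero (congrArg Subtype.val h0))).1 h ⟨_, hmem⟩
    have hc' := (congrArg Subtype.val hc).symm
    change (∑ g, (ρ g : Matrix (Fin n) (Fin n) k) * X *
        (ρ g⁻¹ : Matrix (Fin n) (Fin n) k)) = c • (1 : Matrix (Fin n) (Fin n) k) at hc'
    refine ⟨c, hc', ?_⟩
    have h2 := congrArg Matrix.trace hc'
    rw [Matrix.trace_sum, Matrix.trace_smul, Matrix.trace_one, Fintype.card_fin,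
      smul_eq_mul] at h2
    rw [← h2]
    have h3 : ∀ g, ((ρ g : Matrix (Fin n) (Fin n) k) * X *
        (ρ g⁻¹ : Matrix (Fin n) (Fin n) k)).trace = X.trace := by
      intro g
      rw [Matrix.trace_mul_comm, ← mul_assoc, ← Units.val_mul, ← map_mul, inv_mul_cancel,
        map_one, Units.val_one, one_mul]
    rw [Finset.sum_congr rfl fun g _ => h3 g, Finset.sum_const, Finset.card_univ, nsmul_eq_mul]
  ext j b
  rw [Matrix.zero_apply]
  -- the sum of `tr (Y ρ(g)) ρ(g⁻¹)_{jb}`
  have h2 : ∑ g, (Y * (ρ g : Matrix (Fin n) (Fin n) k)).trace *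
      (ρ g⁻¹ : Matrix (Fin n) (Fin n) k) j b = 0 :=
    Finset.sum_eq_zero fun g _ => by rw [hY g, zero_mul]
  have h3 : ∀ i : Fin n, ∀ a : Fin n,
      ∑ g, (ρ g : Matrix (Fin n) (Fin n) k) a i * (ρ g⁻¹ : Matrix (Fin n) (Fin n) k) j b =
        if i = j ∧ a = b then (Fintype.card G : k) / (n : k) else 0 := by
    intro i a
    obtain ⟨c, hc1, hc2⟩ := hT (Matrix.single i j (1 : k))
    have h4 := congrFun (congrFun hc1 a) b
    rw [Matrix.sum_apply, Matrix.smul_apply, Matrix.one_apply] at h4
    have h5 : ∀ g, ((ρ g : Matrix (Fin n) (Fin n) k) * Matrix.single i j (1 : k) *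
        (ρ g⁻¹ : Matrix (Fin n) (Fin n) k) : Matrix (Fin n) (Fin n) k) a b =
        (ρ g : Matrix (Fin n) (Fin n) k) a i * (ρ g⁻¹ : Matrix (Fin n) (Fin n) k) j b := by
      intro g
      rw [Matrix.mul_apply, Finset.sum_eq_single j]
      · rw [Matrix.mul_single_apply_same, mul_one]
      · intro x _ hx
        rw [Matrix.mul_single_apply_of_ne _ _ _ _ _ hx, zero_mul]
      · intro hj
        exact absurd (Finset.mem_univ j) hj
    rw [Finset.sum_congr rfl fun g _ => h5 g] at h4
    rw [h4]
    by_cases hij : i = j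
    · subst hij
      have h6 : c = (Fintype.card G : k) / (n : k) := by
        rw [eq_div_iff hnk, hc2, Matrix.trace_single_eq_same, mul_one]
      by_cases hab : a = b
      · simp [hab, h6]
      · simp [hab]
    · have h6 : c = 0 := by
        rw [Matrix.trace_single_eq_of_ne _ _ _ hij, mul_zero] at hc2
        exact (mul_eq_zero.1 hc2).resolve_right hnk
      simp [hij, h6]
  have h4 : ∑ g, (Y * (ρ g : Matrix (Fin n) (Fin n) k)).trace *
      (ρ g⁻¹ : Matrix (Fin n) (Fin n) k) j b =
      ∑ i, ∑ a, Y i a * ∑ g, (ρ g : Matrix (Fin n) (Fin n) k) a i *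
        (ρ g⁻¹ : Matrix (Fin n) (Fin n) k) j b := by
    simp only [Matrix.trace, Matrix.diag_apply, Matrix.mul_apply, Finset.sum_mul, Finset.mul_sum]
    rw [Finset.sum_comm]
    refine Finset.sum_congr rfl fun i _ => ?_
    rw [Finset.sum_comm]
    refine Finset.sum_congr rfl fun a _ => ?_
    refine Finset.sum_congr rfl fun g _ => ?_
    ring
  rw [h4, Finset.sum_eq_single j, Finset.sum_eq_single b, h3, if_pos ⟨rfl, rfl⟩] at h2
  · exact (mul_eq_zero.1 h2).resolve_right (div_ne_zero hG hnk)
  · intro a _ ha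
    rw [h3, if_neg (fun h => ha h.2), mul_zero]
  · intro hb
    exact absurd (Finset.mem_univ b) hb
  · intro i _ hi
    refine Finset.sum_eq_zero fun a _ => ?_
    rw [h3, if_neg (fun h => hi h.1), mul_zero]
  · intro hj
    exact absurd (Finset.mem_univ j) hj

/-- Nondegeneracy of the trace form on matrices. -/
theorem eq_zero_of_trace_all (Y : Matrix (Fin n) (Fin n) k)
    (hY : ∀ X : Matrix (Fin n) (Fin n) k, (X * Y).trace = 0) : Y = 0 := by
  classical
  ext i j
  have h1 := hY (Matrix.single j i 1)
  rw [Matrix.trace_single_mul, one_smul] at h1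
  rw [h1, Matrix.zero_apply]

/-- If only zero is orthogonal to a subspace, the subspace is everything. -/
theorem eq_top_of_orth (W : Submodule k (Matrix (Fin n) (Fin n) k))
    (h : ∀ Y : Matrix (Fin n) (Fin n) k, (∀ X ∈ W, (Y * X).trace = 0) → Y = 0) : W = ⊤ := by
  classical
  by_contra hne
  obtain ⟨f, hf, hfW⟩ := Submodule.exists_le_ker_of_lt_top W (lt_top_iff_ne_top.2 hne)
  set Y : Matrix (Fin n) (Fin n) k := Matrix.of fun i j => f (Matrix.single j i 1) with hYd
  have h1 : ∀ X : Matrix (Fin n) (Fin n) k, (Y * X).trace = f X := by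
    intro X
    conv_rhs => rw [Matrix.matrix_eq_sum_single X]
    rw [map_sum]
    simp only [map_sum]
    rw [Matrix.trace]
    simp only [Matrix.diag_apply, Matrix.mul_apply]
    rw [Finset.sum_comm]
    refine Finset.sum_congr rfl fun i _ => ?_
    refine Finset.sum_congr rfl fun j _ => ?_
    have h2 : Matrix.single i j (X i j) = X i j • Matrix.single i j (1 : k) := by
      rw [Matrix.smul_single, smul_eq_mul, mul_one]
    rw [h2, map_smul, smul_eq_mul, hYd, Matrix.of_apply, mul_comm]
  have h2 : Y = 0 := h Y fun X hX => by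
    rw [h1]
    exact hfW hX
  apply hf
  ext X
  rw [← h1, h2, zero_mul, Matrix.trace_zero]
  rfl

/-- The image spans. -/
theorem sp_eq_top [CharZero k] [Finite G] (hn : 0 < n) (ρ : G →* GL (Fin n) k)
    (h : Module.finrank k (com ρ) = 1) : sp ρ = ⊤ :=
  eq_top_of_orth _ fun Y hY => eq_zero_of_com hn ρ h Y fun g => hY _ (mem_sp ρ g)

/-- A Gram determinant which does not vanish. -/
theorem exists_gram (ρ : G →* GL (Fin n) k) (h : sp ρ = ⊤) :
    ∃ g : Fin (n ^ 2) → G, (Matrix.of fun i j =>
      (ρ (g i * g j) : Matrix (Fin n) (Fin n) k).trace : Matrix _ _ k).det ≠ 0 := by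
  classical
  obtain ⟨d, g, -, hspan, hli⟩ := exists_family ρ
  have hd : d = n ^ 2 := by
    have h1 := finrank_span_eq_card hli
    rw [hspan, h, finrank_top, Module.finrank_matrix, Fintype.card_fin, Fintype.card_fin,
      Module.finrank_self, mul_one] at h1
    rw [← h1, sq]
  subst hd
  refine ⟨g, fun hdet => ?_⟩
  obtain ⟨c, hc0, hc⟩ := Matrix.exists_mulVec_eq_zero_iff.2 hdet
  apply hc0
  have h2 : ∑ j, c j • (ρ (g j) : Matrix (Fin n) (Fin n) k) = 0 := by
    refine eq_zero_of_trace_all _ fun X => ?_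
    have hX : X ∈ Submodule.span k (Set.range fun i =>
        (ρ (g i) : Matrix (Fin n) (Fin n) k)) := by
      rw [hspan, h]
      trivial
    induction hX using Submodule.span_induction with
    | mem X hX =>
      obtain ⟨i, rfl⟩ := hX
      have h3 := congrFun hc i
      rw [Matrix.mulVec, dotProduct, Pi.zero_apply] at h3
      rw [Finset.mul_sum, Matrix.trace_sum, ← h3]
      refine Finset.sum_congr rfl fun j _ => ?_
      rw [mul_smul_comm, Matrix.trace_smul, Matrix.of_apply, map_mul, Units.val_mul, smul_eq_mul,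
        mul_comm]
    | zero => rw [zero_mul, Matrix.trace_zero]
    | add a b _ _ ha hb => rw [add_mul, Matrix.trace_add, ha, hb, add_zero]
    | smul r a _ ha => rw [smul_mul_assoc, Matrix.trace_smul, ha, smul_zero]
  have h3 := Fintype.linearIndependent_iff.1 hli c h2
  funext i
  exact h3 i

/-- If a Gram determinant does not vanish, the image spans. -/
theorem sp_eq_top_of_gram (ρ : G →* GL (Fin n) k) (g : Fin (n ^ 2) → G)
    (h : (Matrix.of fun i j =>
      (ρ (g i * g j) : Matrix (Fin n) (Fin n) k).trace : Matrix _ _ k).det ≠ 0) : sp ρ = ⊤ := by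
  classical
  have hli : LinearIndependent k fun i => (⟨(ρ (g i) : Matrix (Fin n) (Fin n) k),
      mem_sp ρ _⟩ : sp ρ) := by
    rw [Fintype.linearIndependent_iff]
    intro c hc
    by_contra hne
    push Not at hne
    apply h
    refine Matrix.exists_mulVec_eq_zero_iff.1 ⟨c, fun h0 => ?_, ?_⟩
    · obtain ⟨i, hi⟩ := hne
      exact hi (congrFun h0 i)
    · have h2 : ∑ j, c j • (ρ (g j) : Matrix (Fin n) (Fin n) k) = 0 := by
        have := congrArg (Submodule.subtype (sp ρ)) hc
        rw [map_sum] at this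
        simpa using this
      funext i
      rw [Matrix.mulVec, dotProduct, Pi.zero_apply]
      have h3 : ((ρ (g i) : Matrix (Fin n) (Fin n) k) *
          ∑ j, c j • (ρ (g j) : Matrix (Fin n) (Fin n) k)).trace = 0 := by
        rw [h2, mul_zero, Matrix.trace_zero]
      rw [Finset.mul_sum, Matrix.trace_sum] at h3
      rw [← h3]
      refine Finset.sum_congr rfl fun j _ => ?_
      rw [mul_smul_comm, Matrix.trace_smul, Matrix.of_apply, map_mul, Units.val_mul, smul_eq_mul,
        mul_comm]
  have h1 := hli.fintype_card_le_finrank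
  rw [Fintype.card_fin] at h1
  refine Submodule.eq_top_of_finrank_eq (le_antisymm (Submodule.finrank_le _) ?_)
  rw [Module.finrank_matrix, Fintype.card_fin, Module.finrank_self, mul_one, ← sq]
  exact h1

/-- If the image spans, the representation is absolutely irreducible. -/
theorem irreducible_of_sp (ρ : G →* GL (Fin n) k) (h : sp ρ = ⊤) {k' : Type*} [Field k']
    (f : k →+* k') (W : Submodule k' (Fin n → k'))
    (hW : ∀ g, ∀ x ∈ W, ((ρ g : Matrix (Fin n) (Fin n) k).map f).mulVec x ∈ W) :
    W = ⊥ ∨ W = ⊤ := by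
  classical
  have h1 : ∀ X : Matrix (Fin n) (Fin n) k, ∀ x ∈ W, (X.map f).mulVec x ∈ W := by
    intro X
    have hX : X ∈ sp ρ := by
      rw [h]
      trivial
    unfold sp at hX
    induction hX using Submodule.span_induction with
    | mem X hX => obtain ⟨g, rfl⟩ := hX; exact hW g
    | zero =>
      intro x _
      rw [Matrix.map_zero _ (map_zero f), Matrix.zero_mulVec]
      exact W.zero_mem
    | add a b _ _ ha hb =>
      intro x hx
      rw [Matrix.map_add _ (map_add f), Matrix.add_mulVec]
      exact W.add_mem (ha x hx) (hb x hx)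
    | smul r a _ ha =>
      intro x hx
      have h2 : (r • a).map f = f r • a.map f := by
        ext i j
        simp
      rw [h2, Matrix.smul_mulVec]
      exact W.smul_mem _ (ha x hx)
  by_cases hb : W = ⊥
  · exact Or.inl hb
  · right
    obtain ⟨x, hx, hx0⟩ := Submodule.exists_mem_ne_zero_of_ne_bot hb
    obtain ⟨j, hj⟩ : ∃ j, x j ≠ 0 := by
      by_contra hcon
      push Not at hcon
      exact hx0 (funext hcon)
    rw [eq_top_iff]
    intro y _
    have h2 : ∀ i, Pi.single i (1 : k') ∈ W := by
      intro i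
      have h3 := W.smul_mem (x j)⁻¹ (h1 (Matrix.single i j 1) x hx)
      convert h3 using 1
      ext l
      rw [Pi.smul_apply, Matrix.mulVec, dotProduct, Finset.sum_eq_single j]
      · rw [Matrix.map_apply, Matrix.single_apply]
        by_cases hil : i = l
        · subst hil
          rw [Pi.single_eq_same, if_pos ⟨rfl, rfl⟩, map_one, one_mul, smul_eq_mul,
            inv_mul_cancel₀ hj]
        · rw [Pi.single_eq_of_ne (Ne.symm hil), if_neg (fun h => hil h.1), map_zero, zero_mul,
            smul_zero]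
      · intro m _ hm
        rw [Matrix.map_apply, Matrix.single_apply, if_neg (fun h => hm h.2.symm), map_zero,
          zero_mul]
      · intro hj'
        exact absurd (Finset.mem_univ j) hj'
    rw [pi_eq_sum_univ' y]
    refine Submodule.sum_mem _ fun i _ => W.smul_mem _ ?_
    convert h2 i using 1

end Pool.Agent.TH119.IR
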