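import Mathlib
import Pool.Agent.TH119.OP.Main
import Pool.Agent.TH119.IR.Alg
import Pool.Agent.W540.BE.Rep

/-!
# The mean square of the traces and irreducibility
-/

set_option linter.unusedSectionVars false
set_option linter.style.haveILetI false

namespace Pool.Agent.TH119.IR

open NumberField IsDedekindDomain Polynomial Filter Topology
open Pool.Agent.W401.Cheb (GK IsFrob IsInert)
open Pool.Agent.W540.BE (upto nm cheb_mean mem_upto trace_conj_matrix)
open Pool.Agent.TH119.DS (finite_char exists_frob_mem)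
open Pool.Agent.TH119.OP (SS sp eq_of_mk)

variable {K E : Type} [Field K] [NumberField K] [Field E] [NumberField E] {n : ℕ}

/-- The commutant of a representation of a quotient. -/
theorem com_quot {k : Type} [Field k] (U : Subgroup (GK K)) [U.Normal]
    (ρ : GK K →* Matrix.GeneralLinearGroup (Fin n) k)
    (ρ' : GK K ⧸ U →* Matrix.GeneralLinearGroup (Fin n) k)
    (h : ∀ σ, ρ' (QuotientGroup.mk σ) = ρ σ) : com ρ' = com ρ := by
  ext X
  rw [mem_com, mem_com]
  constructor
  · intro hX σ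
    rw [← h]
    exact hX _
  · intro hX q
    obtain ⟨σ, rfl⟩ := QuotientGroup.mk_surjective q
    rw [h]
    exact hX σ

/-- The number of primes of norm at most `N` is asymptotic to the number of prime numbers. -/
theorem tendsto_card (K : Type) [Field K] [NumberField K] : Tendsto (fun N : ℕ =>
    ((upto K N).card : ℝ) / (Nat.primeCounting N : ℝ)) atTop (𝓝 1) := by
  classical
  haveI : (⊤ : Subgroup (GK K)).Normal := Subgroup.normal_of_characteristic ⊤
  have hU : IsOpen ((⊤ : Subgroup (GK K)) : Set (GK K)) := by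
    rw [Subgroup.coe_top]
    exact isOpen_univ
  haveI : Finite (GK K ⧸ (⊤ : Subgroup (GK K))) := Subgroup.quotient_finite_of_isOpen _ hU
  letI : Fintype (GK K ⧸ (⊤ : Subgroup (GK K))) := Fintype.ofFinite _
  have hfrob0 := (Pool.Agent.W401.Frob.main K).1
  choose s hs using hfrob0
  have h1 := cheb_mean (⊤ : Subgroup (GK K)) hU (fun _ => (1 : ℂ)) (fun _ _ => rfl) s hs
  rw [finsum_eq_sum_of_fintype, Finset.sum_const, Finset.card_univ, ← Nat.card_eq_fintype_card,
    nsmul_eq_mul, mul_one, inv_mul_cancel₀ (Nat.cast_ne_zero.2 Nat.card_pos.ne')] at h1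
  have h2 := (Complex.continuous_re.tendsto _).comp h1
  rw [Complex.one_re] at h2
  refine h2.congr fun N => ?_
  rw [Function.comp_apply, Finset.sum_const, nsmul_eq_mul, mul_one, ← Complex.ofReal_natCast,
    ← Complex.ofReal_natCast, ← Complex.ofReal_div, Complex.ofReal_re]

/-- **Mean squares and irreducibility.** -/
theorem main (hn : 0 < n) (P : HeightOneSpectrum (𝓞 K) → (𝓞 E)[X])
    (S : Set (HeightOneSpectrum (𝓞 K))) (hS : S.Finite)
    (k : Type) [Field k] [CharZero k] [TopologicalSpace k]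
    [IsTopologicalRing k] [T2Space k] (ι : E →+* k)
    (ρ : GK K →* Matrix.GeneralLinearGroup (Fin n) k)
    (hcont : Continuous fun g => (ρ g : Matrix (Fin n) (Fin n) k))
    (hss : SS ρ)
    (hfrob : ∀ v ∉ S, ∀ σ, IsFrob v σ → (ρ σ : Matrix (Fin n) (Fin n) k).charpoly =
      (P v).map (ι.comp (algebraMap (𝓞 E) E)))
    (B δ : ℝ) (hδ : 1 - 1 / (n : ℝ) ^ 2 < δ)
    (h : ∃ᶠ N : ℕ in atTop, ∃ T : Finset (HeightOneSpectrum (𝓞 K)),
      (∀ v ∈ T, Ideal.absNorm v.asIdeal ≤ N ∧
        ∀ τ : E →+* ℂ, ‖τ ((P v).coeff (n - 1) : 𝓞 E)‖ ≤ B) ∧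
      δ * (upto K N).card ≤ T.card) :
    IsOpen (ρ.ker : Set (GK K)) ∧
    (∀ τ : E →+* ℂ, Tendsto (fun N : ℕ =>
      (∑ v ∈ upto K N, ‖τ ((P v).coeff (n - 1) : 𝓞 E)‖ ^ 2) / (Nat.primeCounting N : ℝ)) atTop
      (𝓝 (Module.finrank k (com ρ)))) ∧
    ((∃ τ : E →+* ℂ, ∃ c < (2 : ℝ), ∃ᶠ N : ℕ in atTop,
      (∑ v ∈ upto K N, ‖τ ((P v).coeff (n - 1) : 𝓞 E)‖ ^ 2) ≤ c * (Nat.primeCounting N : ℝ)) →
      ∃ D : 𝓞 E, D ≠ 0 ∧ ∀ (k' : Type) [Field k'] [TopologicalSpace k'] [IsTopologicalRing k']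
        [T2Space k'] (φ : 𝓞 E →+* k') (S' : Set (HeightOneSpectrum (𝓞 K)))
        (ρ' : GK K →* Matrix.GeneralLinearGroup (Fin n) k'), φ D ≠ 0 → S'.Finite →
        (Continuous fun g => (ρ' g : Matrix (Fin n) (Fin n) k')) →
        (∀ v ∉ S', ((Ideal.absNorm v.asIdeal : ℕ) : k') ≠ 0 → ∀ σ, IsFrob v σ →
          (ρ' σ : Matrix (Fin n) (Fin n) k').charpoly = (P v).map φ) → sp ρ' = ⊤) := by
  classical
  haveI : Nonempty (Fin n) := ⟨⟨0, hn⟩⟩
  obtain ⟨hopen', hr⟩ := Pool.Agent.TH119.OP.main hn P (J := Unit) (fun _ => S) (fun _ => hS)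
    (fun _ => k) (fun _ => ι) (fun _ => ρ) (fun _ => hcont) (fun _ => hss) (fun _ => hfrob)
    B δ hδ h
  have hopen := hopen' ()
  set U := ρ.ker with hU
  haveI : Finite (GK K ⧸ U) := Subgroup.quotient_finite_of_isOpen _ hopen
  letI : Fintype (GK K ⧸ U) := Fintype.ofFinite _
  have hinj : Function.Injective (Polynomial.map (ι.comp (algebraMap (𝓞 E) E))) :=
    Polynomial.map_injective _
      (ι.injective.comp (FaithfulSMul.algebraMap_injective (𝓞 E) E))
  -- the polynomials of the elements of the quotient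
  have hex : ∀ q : GK K ⧸ U, ∃ v, v ∉ S ∧ ∃ τ, IsFrob v τ ∧
      (QuotientGroup.mk τ : GK K ⧸ U) = q := by
    intro q
    obtain ⟨σ, rfl⟩ := QuotientGroup.mk_surjective q
    obtain ⟨v, hv, τ, hτ, hτσ⟩ := exists_frob_mem U hopen _ hS σ
    exact ⟨v, hv, τ, hτ, hτσ⟩
  choose w hwS t ht htq using hex
  have hρw : ∀ σ : GK K, (ρ σ : Matrix (Fin n) (Fin n) k).charpoly =
      (P (w (QuotientGroup.mk σ))).map (ι.comp (algebraMap (𝓞 E) E)) := by
    intro σ
    rw [← hfrob _ (hwS (QuotientGroup.mk σ)) _ (ht _),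
      eq_of_mk ρ U le_rfl (htq (QuotientGroup.mk σ))]
  have hPw : ∀ v ∉ S, ∀ σ, IsFrob v σ → P (w (QuotientGroup.mk σ)) = P v := by
    intro v hv σ hσ
    refine hinj ?_
    rw [← hρw, hfrob v hv σ hσ]
  set c : GK K ⧸ U → 𝓞 E := fun q => (P (w q)).coeff (n - 1) with hc
  -- the representation of the quotient
  set ρQ := QuotientGroup.kerLift ρ with hρQ
  have hρQσ : ∀ σ : GK K, ρQ (QuotientGroup.mk σ) = ρ σ := fun σ => rfl
  have htrQ : ∀ q : GK K ⧸ U, (ρQ q : Matrix (Fin n) (Fin n) k).trace =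
      -(ι.comp (algebraMap (𝓞 E) E)) (c q) := by
    intro q
    obtain ⟨σ, rfl⟩ := QuotientGroup.mk_surjective q
    rw [hρQσ, Matrix.trace_eq_neg_charpoly_coeff, Fintype.card_fin, hρw, Polynomial.coeff_map]
  have hsum : ∑ q : GK K ⧸ U, c q * c q⁻¹ =
      ((Nat.card (GK K ⧸ U) * Module.finrank k (com ρ) : ℕ) : 𝓞 E) := by
    have h1 := finrank_com (G := GK K ⧸ U) ρQ
    rw [com_quot U ρ ρQ hρQσ] at h1
    have h2 : (ι.comp (algebraMap (𝓞 E) E)) (∑ q : GK K ⧸ U, c q * c q⁻¹) =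
        (ι.comp (algebraMap (𝓞 E) E))
          ((Nat.card (GK K ⧸ U) * Module.finrank k (com ρ) : ℕ) : 𝓞 E) := by
      rw [map_natCast, map_sum, Nat.cast_mul, ← h1]
      refine Finset.sum_congr rfl fun q _ => ?_
      rw [htrQ, htrQ, map_mul, neg_mul_neg]
    exact (ι.injective.comp (FaithfulSMul.algebraMap_injective (𝓞 E) E)) h2
  -- the complex representations
  have hcx : ∀ τ : E →+* ℂ, ∃ r : GK K ⧸ U →* Matrix.GeneralLinearGroup (Fin n) ℂ,
      (∀ q, (r q : Matrix (Fin n) (Fin n) ℂ).trace = -τ (c q : 𝓞 E)) ∧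
      Module.finrank ℂ (com r) = Module.finrank k (com ρ) := by
    intro τ
    obtain ⟨r, hrk, hrf⟩ := hr ℂ τ
    have hrk' : r.ker = U := hrk ()
    let rQ : GK K ⧸ U →* Matrix.GeneralLinearGroup (Fin n) ℂ :=
      QuotientGroup.lift U r fun x hx => by
        rw [← hrk'] at hx
        exact hx
    have hrQσ : ∀ σ : GK K, rQ (QuotientGroup.mk σ) = r σ := fun σ => rfl
    have htr : ∀ q, (rQ q : Matrix (Fin n) (Fin n) ℂ).trace = -τ (c q : 𝓞 E) := by
      intro q
      obtain ⟨σ, rfl⟩ := QuotientGroup.mk_surjective q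
      have h1 : r σ = r (t (QuotientGroup.mk σ)) :=
        (eq_of_mk r U hrk'.ge (htq (QuotientGroup.mk σ))).symm
      rw [hrQσ, h1, Matrix.trace_eq_neg_charpoly_coeff, Fintype.card_fin,
        hrf _ ⟨(), hwS _⟩ _ (ht _), Polynomial.coeff_map]
      rfl
    refine ⟨rQ, htr, ?_⟩
    have h1 := finrank_com (G := GK K ⧸ U) rQ
    have h2 : ∑ q : GK K ⧸ U, (rQ q : Matrix (Fin n) (Fin n) ℂ).trace *
        (rQ q⁻¹ : Matrix (Fin n) (Fin n) ℂ).trace =
        (τ.comp (algebraMap (𝓞 E) E)) (∑ q : GK K ⧸ U, c q * c q⁻¹) := by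
      rw [map_sum]
      refine Finset.sum_congr rfl fun q _ => ?_
      rw [htr, htr, map_mul, neg_mul_neg]
      rfl
    rw [h2, hsum, map_natCast, Nat.cast_mul] at h1
    have h3 : (Nat.card (GK K ⧸ U) : ℂ) ≠ 0 := Nat.cast_ne_zero.2 Nat.card_pos.ne'
    exact_mod_cast (mul_left_cancel₀ h3 h1).symm
  have hlim : ∀ τ : E →+* ℂ, Tendsto (fun N : ℕ =>
      (∑ v ∈ upto K N, ‖τ ((P v).coeff (n - 1) : 𝓞 E)‖ ^ 2) / (Nat.primeCounting N : ℝ)) atTop
      (𝓝 (Module.finrank k (com ρ))) := by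
    intro τ
    obtain ⟨r, htr, hfr⟩ := hcx τ
    have hfrob0 := (Pool.Agent.W401.Frob.main K).1
    choose s hs using hfrob0
    have h1 := cheb_mean U hopen
      (fun q => (r q : Matrix (Fin n) (Fin n) ℂ).trace *
        (r q⁻¹ : Matrix (Fin n) (Fin n) ℂ).trace) (by
      intro a g
      have h2 : ∀ a : GK K ⧸ U, (r (g * a * g⁻¹) : Matrix (Fin n) (Fin n) ℂ).trace =
          (r a : Matrix (Fin n) (Fin n) ℂ).trace := by
        intro a
        rw [map_mul, map_mul, map_inv, Units.val_mul, Units.val_mul, Matrix.trace_mul_comm,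
          ← mul_assoc, ← Units.val_mul, inv_mul_cancel, Units.val_one, one_mul]
      have h3 : (g * a * g⁻¹)⁻¹ = g * a⁻¹ * g⁻¹ := by group
      rw [h3, h2, h2]) s hs
    rw [finsum_eq_sum_of_fintype, finrank_com, hfr, inv_mul_cancel_left₀
      (Nat.cast_ne_zero.2 Nat.card_pos.ne')] at h1
    -- real values
    have h2 : ∀ q, (r q : Matrix (Fin n) (Fin n) ℂ).trace *
        (r q⁻¹ : Matrix (Fin n) (Fin n) ℂ).trace = ((‖τ (c q : 𝓞 E)‖ ^ 2 : ℝ) : ℂ) := by
      intro q
      obtain ⟨m, hm⟩ : ∃ m, Nat.card (GK K ⧸ U) = m + 1 :=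
        ⟨Nat.card (GK K ⧸ U) - 1, by have := Nat.card_pos (α := GK K ⧸ U); omega⟩
      have h3 := trace_conj_matrix (r q : Matrix (Fin n) (Fin n) ℂ)
        (r q⁻¹ : Matrix (Fin n) (Fin n) ℂ) (k := m) (by
          rw [← Units.val_mul, ← map_mul, mul_inv_cancel, map_one, Units.val_one]) (by
          rw [← Units.val_pow_eq_pow_val, ← map_pow, ← hm, pow_card_eq_one', map_one,
            Units.val_one])
      rw [← h3, Complex.mul_conj, htr, Complex.normSq_neg, Complex.normSq_eq_norm_sq]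
    have h3 : Tendsto (fun N : ℕ =>
        (∑ v ∈ upto K N, ‖τ (c (QuotientGroup.mk (s v)) : 𝓞 E)‖ ^ 2) /
          (Nat.primeCounting N : ℝ)) atTop (𝓝 (Module.finrank k (com ρ))) := by
      have h4 := (Complex.continuous_re.tendsto _).comp h1
      rw [Complex.natCast_re] at h4
      refine h4.congr fun N => ?_
      rw [Function.comp_apply, Finset.sum_congr rfl fun v _ => h2 (QuotientGroup.mk (s v)),
        ← Complex.ofReal_sum, ← Complex.ofReal_natCast, ← Complex.ofReal_div,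
        Complex.ofReal_re]
    have hpi : Tendsto (fun N : ℕ => (Nat.primeCounting N : ℝ)) atTop atTop :=
      tendsto_natCast_atTop_atTop.comp Nat.tendsto_primeCounting
    set f : HeightOneSpectrum (𝓞 K) → ℝ := fun v => ‖τ ((P v).coeff (n - 1) : 𝓞 E)‖ ^ 2 with hf
    set g : HeightOneSpectrum (𝓞 K) → ℝ :=
      fun v => ‖τ (c (QuotientGroup.mk (s v)) : 𝓞 E)‖ ^ 2 with hg
    have hfg : ∀ v ∉ S, f v = g v := by
      intro v hv
      rw [hf, hg]
      simp only [hc]
      rw [hPw v hv _ (hs v)]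
    set C : ℝ := ∑ v ∈ hS.toFinset, |f v - g v| with hC
    have h5 : Tendsto (fun N : ℕ => (∑ v ∈ upto K N, f v) / (Nat.primeCounting N : ℝ) -
        (∑ v ∈ upto K N, g v) / (Nat.primeCounting N : ℝ)) atTop (𝓝 0) := by
      have h6 : Tendsto (fun N : ℕ => C / (Nat.primeCounting N : ℝ)) atTop (𝓝 0) :=
        tendsto_const_nhds.div_atTop hpi
      refine squeeze_zero_norm (fun N => ?_) h6
      rw [← sub_div, ← Finset.sum_sub_distrib, Real.norm_eq_abs, abs_div,
        Nat.abs_cast]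
      refine div_le_div_of_nonneg_right ?_ (Nat.cast_nonneg _)
      refine (Finset.abs_sum_le_sum_abs _ _).trans ?_
      rw [hC, ← Finset.sum_filter_of_ne (p := fun v => v ∈ S) (by
        intro v _ hv
        by_contra hvS
        apply hv
        rw [hfg v hvS, sub_self, abs_zero])]
      refine Finset.sum_le_sum_of_subset_of_nonneg (fun v hv => ?_) fun v _ _ => abs_nonneg _
      rw [Set.Finite.mem_toFinset]
      exact (Finset.mem_filter.1 hv).2
    have h6 := h5.add h3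
    rw [zero_add] at h6
    refine h6.congr fun N => ?_
    rw [sub_add_cancel]
  refine ⟨hopen, hlim, ?_⟩
  rintro ⟨τ, b, hb, hfreq⟩
  -- the commutant is one-dimensional
  have hm : Module.finrank k (com ρ) = 1 := by
    have hpi : Tendsto (fun N : ℕ => (Nat.primeCounting N : ℝ)) atTop atTop :=
      tendsto_natCast_atTop_atTop.comp Nat.tendsto_primeCounting
    have h1 : (Module.finrank k (com ρ) : ℝ) ≤ b := by
      by_contra hcon
      push Not at hcon
      have h2 := ((hlim τ).eventually_const_lt hcon).and (hpi.eventually_gt_atTop 0)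
      obtain ⟨N, h3, h4, h5⟩ := (hfreq.and_eventually h2).exists
      rw [lt_div_iff₀ h5] at h4
      linarith
    have h2 : Module.finrank k (com ρ) < 2 := by
      have : (Module.finrank k (com ρ) : ℝ) < 2 := lt_of_le_of_lt h1 hb
      exact_mod_cast this
    have h3 : 0 < Module.finrank k (com ρ) := by
      haveI : Nontrivial (com ρ) := ⟨⟨⟨1, fun g => by rw [one_mul, mul_one]⟩, 0, fun h0 => by
        exact one_ne_zero (congrArg Subtype.val h0)⟩⟩
      exact Module.finrank_pos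
    omega
  obtain ⟨r, htr, hfr⟩ := hcx τ
  obtain ⟨g, hg⟩ := exists_gram r (sp_eq_top hn r (by rw [hfr, hm]))
  refine ⟨(Matrix.of fun i j => -(c (g i * g j)) : Matrix _ _ (𝓞 E)).det, ?_, ?_⟩
  · intro h0
    apply hg
    have h1 := congrArg (τ.comp (algebraMap (𝓞 E) E)) h0
    rw [RingHom.map_det, map_zero] at h1
    rw [← h1]
    congr 1
    ext i j
    rw [Matrix.of_apply, htr, RingHom.mapMatrix_apply, Matrix.map_apply, Matrix.of_apply, map_neg]
    rfl
  · intro k' _ _ _ _ φ S' ρ' hφ hS' hcont' hfrob'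
    -- the traces
    have htr' : ∀ σ : GK K, (ρ' σ : Matrix (Fin n) (Fin n) k').trace =
        φ (-(c (QuotientGroup.mk σ))) := by
      intro σ
      by_contra hne
      have hcx : Continuous fun x : GK K => (ρ' (σ * x) : Matrix (Fin n) (Fin n) k').trace :=
        (hcont'.comp (continuous_const.mul continuous_id)).matrix_trace
      have hO : IsOpen ({x : GK K | (ρ' (σ * x) : Matrix (Fin n) (Fin n) k').trace ≠
          φ (-(c (QuotientGroup.mk σ)))} ∩ (U : Set (GK K))) :=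
        ((isClosed_singleton.preimage hcx).isOpen_compl).inter hopen
      obtain ⟨V, hV⟩ := ProfiniteGrp.exist_openNormalSubgroup_sub_open_nhds_of_one hO (by
        refine ⟨?_, U.one_mem⟩
        rw [Set.mem_ofPred_eq, mul_one]
        exact hne)
      have hVo : IsOpen ((V : Subgroup (GK K)) : Set (GK K)) := V.isOpen'
      obtain ⟨v, hv, τ0, hτ0, hτσ⟩ := exists_frob_mem (V : Subgroup (GK K)) hVo
        (S ∪ (S' ∪ {v : HeightOneSpectrum (𝓞 K) | ((Ideal.absNorm v.asIdeal : ℕ) : k') = 0}))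
        (hS.union (hS'.union (finite_char k'))) σ
      rw [Set.mem_union, Set.mem_union] at hv
      push Not at hv
      have h1 : σ⁻¹ * τ0 ∈ (V : Subgroup (GK K)) := QuotientGroup.eq.1 hτσ.symm
      obtain ⟨h2, h3⟩ := hV h1
      apply h2
      rw [mul_inv_cancel_left, Matrix.trace_eq_neg_charpoly_coeff, Fintype.card_fin,
        hfrob' v hv.2.1 hv.2.2 τ0 hτ0, Polynomial.coeff_map, map_neg]
      have h4 : (QuotientGroup.mk σ : GK K ⧸ U) = QuotientGroup.mk τ0 := QuotientGroup.eq.2 h3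
      rw [h4]
      simp only [hc]
      rw [hPw v hv.1 τ0 hτ0]
    choose lft hlft using fun i => QuotientGroup.mk_surjective (g i)
    refine sp_eq_top_of_gram ρ' lft ?_
    rw [RingHom.map_det] at hφ
    convert hφ using 2
    ext i j
    rw [Matrix.of_apply, htr', RingHom.mapMatrix_apply, Matrix.map_apply, Matrix.of_apply,
      QuotientGroup.mk_mul, hlft, hlft]

end Pool.Agent.TH119.IR
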